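import Mathlib
import Pool.Agent.H504R3.SDefs

/-!
# Dividing and simple theories in the continuous logic of tracial von Neumann algebras

Elementary extensions, complete types over a set, indiscernible sequences, dividing, and simplicity of
the theory of a tracial von Neumann algebra. Instead of a monster model we use elementary extensions
of arbitrary models.
-/

set_option autoImplicit false

namespace Pool.Agent.Q301.Simple

open Pool.Agent.H504R3.S

/-- `e` makes the tracial von Neumann algebra `N` an elementary extension of `M`: it maps each
operator norm ball of `M` into the ball of `N` with the same radius, and it preserves the values of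
all formulas. -/
structure IsElemExt (M N : Str) (e : M.carrier → N.carrier) : Prop where
  tvn : N.IsTVN
  ball : ∀ (r : ℕ) (x : M.carrier), M.nrm x ≤ r → N.nrm (e x) ≤ r
  val : ∀ (m : ℕ) (φ : Fm m) (x : Fin m → M.carrier), φ.val N (fun i => e (x i)) = φ.val M x

/-- Complete types in `n` variables over a tuple indexed by `ι`: a real value for every formula whose
variables are the `n` variables and finitely many variables for entries of the tuple. -/
abbrev Ty (n : ℕ) (ι : Type) : Type := (m : ℕ) → Fm (n + m) → (Fin m → ι) → ℝ

/-- The complete type of the tuple `u` over the tuple `b` in `M`. -/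
noncomputable def tp (M : Str) {n : ℕ} {ι : Type} (u : Fin n → M.carrier) (b : ι → M.carrier) :
    Ty n ι :=
  fun _ φ s => φ.val M (Fin.append u (fun k => b (s k)))

/-- The sequence `c 0, c 1, …` of tuples (indexed by `ι`) is `A`-indiscernible: a formula with
parameters from `A` takes the same value at entries of `c 0, c 1, …` and at the corresponding
entries of a subsequence `c (g 0), c (g 1), …`. -/
def IsIndisc (N : Str) (A : Set N.carrier) {ι : Type} (c : ℕ → ι → N.carrier) : Prop :=
  ∀ g : ℕ → ℕ, StrictMono g → ∀ (m : ℕ) (φ : Fm m) (s : Fin m → (ℕ × ι) ⊕ A),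
    φ.val N (fun i => Sum.elim (fun q => c q.1 q.2) Subtype.val (s i)) =
    φ.val N (fun i => Sum.elim (fun q => c (g q.1) q.2) Subtype.val (s i))

/-- The type `p` in `n` variables (of the sorts given by the balls of radii `r i`) over the tuple `b`
(with entries in the balls of radii `ρ t`) divides over `A`: in some elementary extension `N` of `M`
there is an `A`-indiscernible sequence `c 0, c 1, …` with `c 0 = b` such that the union of the types
`p` over `c j` is inconsistent, i.e. not realised in any elementary extension of `N`. -/
def Divides (M : Str) {ι : Type} (ρ : ι → ℕ) (b : ι → M.carrier) (A : Set M.carrier) {n : ℕ}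
    (r : Fin n → ℕ) (p : Ty n ι) : Prop :=
  ∃ (N : Str) (e : M.carrier → N.carrier) (c : ℕ → ι → N.carrier), IsElemExt M N e ∧
    (∀ j t, N.nrm (c j t) ≤ ρ t) ∧ (∀ t, c 0 t = e (b t)) ∧ IsIndisc N (e '' A) c ∧
    ∀ (K : Str) (f : N.carrier → K.carrier), IsElemExt N K f →
      ¬ ∃ v : Fin n → K.carrier, (∀ i, K.nrm (v i) ≤ r i) ∧
        ∀ j, tp K v (fun t => f (c j t)) = p

/-- The set `A` is separable in the 2-norm. -/
def SepSet (M : Str) (A : Set M.carrier) : Prop :=
  ∃ D : Set M.carrier, D.Countable ∧
    ∀ x ∈ A, ∀ ε : ℝ, 0 < ε → ∃ y ∈ D, M.norm2 (M.sub x y) < ε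

/-- The theory of `T` is simple: for every tracial von Neumann algebra `M` elementarily equivalent
to `T`, every set `B` in `M` (enumerated by the tuple `b`) and every complete type over `B` in
finitely many variables (realised by the tuple `u` in an elementary extension `N` of `M`), there is a
separable subset `A` of `B` over which the type does not divide. -/
def IsSimple (T : Str) : Prop :=
  ∀ M : Str, M.IsTVN → M.ElemEq T →
    ∀ (ι : Type) (ρ : ι → ℕ) (b : ι → M.carrier), (∀ t, M.nrm (b t) ≤ ρ t) →
    ∀ (n : ℕ) (r : Fin n → ℕ) (N : Str) (e : M.carrier → N.carrier), IsElemExt M N e →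
    ∀ u : Fin n → N.carrier, (∀ i, N.nrm (u i) ≤ r i) →
      ∃ A ⊆ Set.range b, SepSet M A ∧ ¬ Divides M ρ b A r (tp N u (fun t => e (b t)))

end Pool.Agent.Q301.Simple
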