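import Mathlib
import Pool.Agent.Q301.VN.Los
import Pool.Agent.H504R3.Flip

/-!
Sequences of tensor factors in an ultrapower of the hyperfinite factor, and unitaries permuting them.
-/

set_option autoImplicit false
set_option linter.unusedSectionVars false

open scoped InnerProductSpace ComplexOrder Topology BoundedContinuousFunction
open Filter
open Pool.Agent.Helper278 Pool.Agent.Helper436.SM
open Pool.Agent.H504R3 hiding Tm Fm
open Pool.Agent.H504R3.S (str Str Tm Fm tval)
open Pool.Agent.Q301.VN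

namespace Pool.Agent.Q301.Simple

/-- a finite partial injection extends to a finite permutation -/
theorem exists_ext_perm {N : ℕ} (a a' : Fin N → ℕ) (h : ∀ v v', a v = a v' ↔ a' v = a' v') :
    ∃ σ : Equiv.Perm ℕ, σ ∈ Subgroup.closure {σ : Equiv.Perm ℕ | σ.IsSwap} ∧
      ∀ v, σ (a v) = a' v := by
  classical
  have key : ∀ n ≤ N, ∃ σ : Equiv.Perm ℕ, σ ∈ Subgroup.closure {σ : Equiv.Perm ℕ | σ.IsSwap} ∧
      ∀ v : Fin N, v.1 < n → σ (a v) = a' v := by
    intro n
    induction n with
    | zero => exact fun _ => ⟨1, one_mem _, fun v hv => absurd hv (Nat.not_lt_zero _)⟩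
    | succ n ih =>
      intro hn
      obtain ⟨σ, hσ, h1⟩ := ih (by omega)
      set w : Fin N := ⟨n, by omega⟩ with hw
      by_cases hex : ∃ v : Fin N, v.1 < n ∧ a v = a w
      · obtain ⟨v, hv, hvw⟩ := hex
        refine ⟨σ, hσ, fun v' hv' => ?_⟩
        rcases Nat.lt_succ_iff_lt_or_eq.1 hv' with h2 | h2
        · exact h1 v' h2
        · have : v' = w := Fin.ext h2
          rw [this, ← hvw, h1 v hv, (h v w).1 hvw]
      · by_cases he : σ (a w) = a' w
        · refine ⟨σ, hσ, fun v' hv' => ?_⟩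
          rcases Nat.lt_succ_iff_lt_or_eq.1 hv' with h2 | h2
          · exact h1 v' h2
          · have : v' = w := Fin.ext h2
            rw [this, he]
        · refine ⟨Equiv.swap (σ (a w)) (a' w) * σ,
            mul_mem (Subgroup.subset_closure ⟨_, _, he, rfl⟩) hσ, fun v' hv' => ?_⟩
          rcases Nat.lt_succ_iff_lt_or_eq.1 hv' with h2 | h2
          · rw [Equiv.Perm.mul_apply, h1 v' h2]
            have hne : a v' ≠ a w := fun h3 => hex ⟨v', h2, h3⟩
            refine Equiv.swap_apply_of_ne_of_ne ?_ ?_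
            · rw [← h1 v' h2]
              exact fun h3 => hne (σ.injective h3)
            · exact fun h3 => hne ((h v' w).2 h3)
          · have : v' = w := Fin.ext h2
            rw [this, Equiv.Perm.mul_apply, Equiv.swap_apply_left]
  obtain ⟨σ, hσ, h1⟩ := key N le_rfl
  exact ⟨σ, hσ, fun v => h1 v v.2⟩

section conj

variable (M : TVN) (w : M.E) (h1 : star w * w = 1) (h2 : w * star w = 1)

include h1 h2 in
theorem tval_conj {V : Type} (x : V → M.E) (t : Tm V) :
    tval M (fun v => w * x v * star w) t = w * tval M x t * star w := by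
  induction t with
  | var v => rfl
  | one =>
    show (1 : M.E) = w * 1 * star w
    rw [mul_one, h2]
  | add s t hs ht =>
    show tval M _ s + tval M _ t = w * (tval M x s + tval M x t) * star w
    rw [hs, ht, mul_add, add_mul]
  | mul s t hs ht =>
    show tval M _ s * tval M _ t = w * (tval M x s * tval M x t) * star w
    rw [hs, ht]
    calc w * tval M x s * star w * (w * tval M x t * star w)
        = w * tval M x s * (star w * w) * tval M x t * star w := by simp only [mul_assoc]
      _ = _ := by rw [h1, mul_one]; simp only [mul_assoc]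
  | adj s hs =>
    show star (tval M _ s) = w * star (tval M x s) * star w
    rw [hs, star_mul, star_mul, star_star, mul_assoc]
  | scal c s hs =>
    show c • tval M _ s = w * (c • tval M x s) * star w
    rw [hs, mul_smul_comm, smul_mul_assoc]

include h1 in
theorem tau_conj (y : M.E) : M.τ (w * y * star w) = M.τ y := by
  rw [M.tracial, ← mul_assoc, h1, one_mul]

include h1 h2 in
theorem norm2_conj (y : M.E) : M.norm2 (w * y * star w) = M.norm2 y := by
  show n2 M.τ _ = n2 M.τ _
  have h2' : star w * star (star w) = 1 := by rw [star_star]; exact h1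
  rw [n2_isom_right M.trAlg h2', n2_isom_left h1]

include h1 h2 in
theorem opNorm_conj_le (y : M.E) : M.opNorm (w * y * star w) ≤ M.opNorm y := by
  have e1 := S.opNorm_unitary M h1
  have e2 : M.opNorm (star w) ≤ 1 := by rw [opNorm_star]; exact e1
  refine (opNorm_mul M _ _).trans ?_
  have e3 := opNorm_mul M w y
  have e4 := opNorm_nonneg M y
  have e5 := opNorm_nonneg M (w * y)
  have e6 := opNorm_nonneg M w
  nlinarith

/-- conjugation on a ball -/
noncomputable def cj (M : TVN) (w : M.E) (h1 : star w * w = 1) (h2 : w * star w = 1) (r : ℕ) :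
    {x : M.E // M.opNorm x ≤ r} ≃ {x : M.E // M.opNorm x ≤ r} where
  toFun y := ⟨w * y.1 * star w, (opNorm_conj_le M w h1 h2 _).trans y.2⟩
  invFun y := ⟨star w * y.1 * star (star w),
    (opNorm_conj_le M (star w) (by rw [star_star]; exact h2) (by rw [star_star]; exact h1) _).trans
      y.2⟩
  left_inv y := by
    apply Subtype.ext
    show star w * (w * y.1 * star w) * star (star w) = y.1
    rw [star_star]
    calc star w * (w * y.1 * star w) * w
        = (star w * w) * y.1 * (star w * w) := by simp only [mul_assoc]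
      _ = y.1 := by rw [h1, one_mul, mul_one]
  right_inv y := by
    apply Subtype.ext
    show w * (star w * y.1 * star (star w)) * star w = y.1
    rw [star_star]
    calc w * (star w * y.1 * w) * star w
        = (w * star w) * y.1 * (w * star w) := by simp only [mul_assoc]
      _ = y.1 := by rw [h2, one_mul, mul_one]

include h1 h2 in
theorem fval_conj {n : ℕ} (φ : Fm n) : ∀ x : Fin n → M.E,
    φ.val (str M) (fun i => w * x i * star w) = φ.val (str M) x := by
  induction φ with
  | re t =>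
    intro x
    show (M.τ (tval M _ t)).re = (M.τ (tval M x t)).re
    rw [tval_conj M w h1 h2, tau_conj M w h1]
  | im t =>
    intro x
    show (M.τ (tval M _ t)).im = (M.τ (tval M x t)).im
    rw [tval_conj M w h1 h2, tau_conj M w h1]
  | nrm t =>
    intro x
    show M.norm2 (tval M _ t) = M.norm2 (tval M x t)
    rw [tval_conj M w h1 h2, norm2_conj M w h1 h2]
  | conn u φ ih =>
    intro x
    show u _ = u _
    congr 1
    funext i
    exact ih i x
  | @sup n r φ ih =>
    intro x
    show ⨆ y : (str M).Ball r, _ = ⨆ y : (str M).Ball r, _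
    let E : (str M).Ball r ≃ (str M).Ball r := cj M w h1 h2 r
    rw [← E.iSup_comp (g := fun y : (str M).Ball r =>
      φ.val (str M) (Fin.cons y.1 (fun i => w * x i * star w)))]
    refine iSup_congr fun y => ?_
    refine Eq.trans ?_ (ih (Fin.cons y.1 x))
    congr 1
    funext i
    refine Fin.cases ?_ (fun k => ?_) i
    · rfl
    · rfl
  | @inf n r φ ih =>
    intro x
    show ⨅ y : (str M).Ball r, _ = ⨅ y : (str M).Ball r, _
    let E : (str M).Ball r ≃ (str M).Ball r := cj M w h1 h2 r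
    rw [← E.iInf_comp (g := fun y : (str M).Ball r =>
      φ.val (str M) (Fin.cons y.1 (fun i => w * x i * star w)))]
    refine iInf_congr fun y => ?_
    refine Eq.trans ?_ (ih (Fin.cons y.1 x))
    congr 1
    funext i
    refine Fin.cases ?_ (fun k => ?_) i
    · rfl
    · rfl

end conj

section ups

variable {R M : TVN} {U : Ultrafilter ℕ} {θ : (ℕ →ᵇ Elt R.N) →⋆ₐ[ℂ] M.E} (h : IsUP R U M θ)
  {j : ℕ → (M2 →⋆ₐ[ℂ] R.E)} (hc : Cmm j)

include h in
theorem theta_zero (Z : ℕ →ᵇ Elt R.N) (hZ : ∀ᶠ k in U, Z k = 0) : θ Z = 0 := by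
  apply M.faithful
  rw [← map_star, ← map_mul]
  refine tendsto_nhds_unique (h.trace (star Z * Z)) ?_
  refine tendsto_const_nhds.congr' ?_
  filter_upwards [hZ] with k hk
  show (0 : ℂ) = R.τ (star (Z k) * Z k)
  rw [hk, mul_zero, map_zero]

include h in
theorem theta_eq (Y Z : ℕ →ᵇ Elt R.N) (hZ : ∀ᶠ k in U, Y k = Z k) : θ Y = θ Z := by
  have h1 := theta_zero h (Y - Z) (by
    filter_upwards [hZ] with k hk
    show Y k - Z k = 0
    rw [hk, sub_self])
  rw [map_sub] at h1
  exact sub_eq_zero.1 h1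

/-- the `k`-th symmetry -/
noncomputable def sm (j : ℕ → (M2 →⋆ₐ[ℂ] R.E)) (k : ℕ) : R.E := j k (pm (0, 1))

theorem sm_star (k : ℕ) : star (sm j k) = sm j k := by
  unfold sm
  rw [← map_star, sz]

theorem sm_sq (k : ℕ) : star (sm j k) * sm j k = 1 := by
  rw [sm_star]
  unfold sm
  rw [← map_mul, pz, map_one]

theorem sm_norm (k : ℕ) : ‖(sm j k : Elt R.N)‖ ≤ 1 := S.opNorm_unitary R (sm_sq k)

include hc in
theorem sm_dist {k l : ℕ} (hkl : k ≠ l) : R.norm2 (sm j k - sm j l) = Real.sqrt 2 := by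
  have hon := PauliSys.on (pauliSys hc R.trAlg)
  have e : ∀ k, Ws j (Finsupp.single k ((0 : ZMod 2), (1 : ZMod 2))) = sm j k := fun k =>
    Ws_single k _
  have hne : Finsupp.single k ((0 : ZMod 2), (1 : ZMod 2)) ≠
      Finsupp.single l ((0 : ZMod 2), (1 : ZMod 2)) := by
    intro h
    have h1 := DFunLike.congr_fun h k
    rw [Finsupp.single_eq_same, Finsupp.single_eq_of_ne hkl] at h1
    exact absurd h1 (by decide)
  have h1 := hon (Finsupp.single k ((0 : ZMod 2), (1 : ZMod 2)))
    (Finsupp.single k ((0 : ZMod 2), (1 : ZMod 2)))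
  have h2 := hon (Finsupp.single l ((0 : ZMod 2), (1 : ZMod 2)))
    (Finsupp.single l ((0 : ZMod 2), (1 : ZMod 2)))
  have h3 := hon (Finsupp.single k ((0 : ZMod 2), (1 : ZMod 2)))
    (Finsupp.single l ((0 : ZMod 2), (1 : ZMod 2)))
  have h4 := hon (Finsupp.single l ((0 : ZMod 2), (1 : ZMod 2)))
    (Finsupp.single k ((0 : ZMod 2), (1 : ZMod 2)))
  rw [e, if_pos rfl] at h1 h2
  rw [e, e, if_neg hne] at h3
  rw [e, e, if_neg hne.symm] at h4
  unfold TVN.norm2
  have e2 : star (sm j k - sm j l) * (sm j k - sm j l) = star (sm j k) * sm j k -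
      star (sm j k) * sm j l - star (sm j l) * sm j k + star (sm j l) * sm j l := by
    rw [star_sub]; noncomm_ring
  rw [e2, map_add, map_sub, map_sub, h1, h2, h3, h4]
  norm_num

/-- the sequence of symmetries given by a function -/
noncomputable def Sg (j : ℕ → (M2 →⋆ₐ[ℂ] R.E)) (f : ℕ → ℕ) : ℕ →ᵇ Elt R.N :=
  BoundedContinuousFunction.ofNormedAddCommGroup (fun k => (sm j (f k) : Elt R.N))
    continuous_of_discreteTopology 1 (fun k => sm_norm (f k))

theorem Sg_apply (f : ℕ → ℕ) (k : ℕ) : Sg j f k = sm j (f k) := rfl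

include h in
theorem Sg_norm (f : ℕ → ℕ) : M.opNorm (θ (Sg j f)) ≤ ((1 : ℕ) : ℝ) :=
  h.norm 1 _ fun k => (sm_norm (f k)).trans (by simp)

include h hc in
theorem Sg_dist (f g : ℕ → ℕ) (hfg : ∀ᶠ k in U, f k ≠ g k) :
    M.norm2 (θ (Sg j f) - θ (Sg j g)) = Real.sqrt 2 := by
  rw [← map_sub]
  refine tendsto_nhds_unique (tendsto_norm2 h (Sg j f - Sg j g)) ?_
  refine tendsto_const_nhds.congr' ?_
  filter_upwards [hfg] with k hk
  exact (sm_dist hc hk).symm

include h hc in
/-- a sequence of permutations of the tensor factors gives a unitary -/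
theorem exists_w (P : ℕ → Equiv.Perm ℕ → Prop)
    (hP : ∀ᶠ k in U, ∃ σ, P k σ ∧ σ ∈ Subgroup.closure {σ : Equiv.Perm ℕ | σ.IsSwap}) :
    ∃ w : M.E, star w * w = 1 ∧ w * star w = 1 ∧
      ∀ f g : ℕ → ℕ, (∀ᶠ k in U, ∀ σ, P k σ → σ (f k) = g k) →
        w * θ (Sg j f) * star w = θ (Sg j g) := by
  classical
  have h0 : ∀ k, ∃ u : R.E, star u * u = 1 ∧ u * star u = 1 ∧
      ((∃ σ, P k σ ∧ σ ∈ Subgroup.closure {σ : Equiv.Perm ℕ | σ.IsSwap}) →
        ∃ σ, P k σ ∧ ∀ i x, u * j i x = j (σ i) x * u) := by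
    intro k
    by_cases hk : ∃ σ, P k σ ∧ σ ∈ Subgroup.closure {σ : Equiv.Perm ℕ | σ.IsSwap}
    · obtain ⟨σ, hσ, hσ'⟩ := hk
      obtain ⟨u, hu1, hu2, hu3⟩ := exists_perm hc σ hσ'
      exact ⟨u, hu1, hu2, fun _ => ⟨σ, hσ, hu3⟩⟩
    · exact ⟨1, by simp, by simp, fun hk' => absurd hk' hk⟩
  choose u hu1 hu2 hu3 using h0
  let W : ℕ →ᵇ Elt R.N := BoundedContinuousFunction.ofNormedAddCommGroup (fun k => (u k : Elt R.N))
    continuous_of_discreteTopology 1 (fun k => S.opNorm_unitary R (hu1 k))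
  have hW : ∀ k, W k = u k := fun k => rfl
  have hw1 : star (θ W) * θ W = 1 := by
    rw [← map_star, ← map_mul, ← map_one θ]
    congr 1
    ext1 k
    exact hu1 k
  have hw2 : θ W * star (θ W) = 1 := by
    rw [← map_star, ← map_mul, ← map_one θ]
    congr 1
    ext1 k
    exact hu2 k
  refine ⟨θ W, hw1, hw2, fun f g hfg => ?_⟩
  rw [← map_star, ← map_mul, ← map_mul]
  apply theta_eq h
  filter_upwards [hP, hfg] with k hk1 hk2
  obtain ⟨σ, hσ, hσ'⟩ := hu3 k hk1
  show u k * sm j (f k) * star (u k) = sm j (g k)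
  unfold sm
  rw [hσ', hk2 σ hσ, mul_assoc, hu2, mul_one]

include h hc in
/-- any two tuples of functions with the same eventual equality pattern are conjugate -/
theorem exists_conj {N : ℕ} (H H' : Fin N → ℕ → ℕ)
    (hH : ∀ v v', ∀ᶠ k in U, (H v k = H v' k ↔ H' v k = H' v' k)) :
    ∃ w : M.E, star w * w = 1 ∧ w * star w = 1 ∧
      ∀ v, w * θ (Sg j (H v)) * star w = θ (Sg j (H' v)) := by
  obtain ⟨w, h1, h2, h3⟩ := exists_w h hc (fun k σ => ∀ v, σ (H v k) = H' v k) (by
    have h4 : ∀ᶠ k in U, ∀ v v', (H v k = H v' k ↔ H' v k = H' v' k) :=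
      eventually_all.2 fun v => eventually_all.2 fun v' => hH v v'
    filter_upwards [h4] with k hk
    obtain ⟨σ, hσ, hσ'⟩ := exists_ext_perm (fun v => H v k) (fun v => H' v k) hk
    exact ⟨σ, hσ', hσ⟩)
  exact ⟨w, h1, h2, fun v => h3 (H v) (H' v) (Eventually.of_forall fun k σ hσ => hσ v)⟩

include h hc in
theorem fval_pattern {N : ℕ} (φ : Fm N) (H H' : Fin N → ℕ → ℕ)
    (hH : ∀ v v', ∀ᶠ k in U, (H v k = H v' k ↔ H' v k = H' v' k)) :
    φ.val (str M) (fun v => θ (Sg j (H v))) = φ.val (str M) (fun v => θ (Sg j (H' v))) := by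
  obtain ⟨w, h1, h2, h3⟩ := exists_conj h hc H H' hH
  rw [← fval_conj M w h1 h2 φ]
  congr 1
  funext v
  exact h3 v

end ups

end Pool.Agent.Q301.Simple
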