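import Mathlib
import Pool.Agent.Q301.Simple.Defs
import Pool.Agent.Q301.Simple.Perm

/-!
The theory of the hyperfinite factor is not simple.
-/

set_option autoImplicit false
set_option linter.unusedSectionVars false

open scoped InnerProductSpace ComplexOrder Topology BoundedContinuousFunction
open Filter
open Pool.Agent.Helper278 Pool.Agent.Helper436.SM
open Pool.Agent.H504R3 hiding Tm Fm
open Pool.Agent.H504R3.S (str Str Tm Fm tval)
open Pool.Agent.Q301.VN

namespace Pool.Agent.Q301.Simple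

/-- code of the first `k` values -/
def code (x : ℕ → Bool) (k : ℕ) : ℕ := Encodable.encode ((List.range k).map x)

theorem code_ne {x y : ℕ → Bool} (hxy : x ≠ y) : ∃ i, ∀ k, i < k → code x k ≠ code y k := by
  obtain ⟨i, hi⟩ := Function.ne_iff.1 hxy
  refine ⟨i, fun k hk h => hi ?_⟩
  have h1 := Encodable.encode_injective h
  have h2 := List.map_inj_left.1 h1 i (List.mem_range.2 hk)
  exact h2

theorem code_bdd (k : ℕ) : ∃ N, ∀ x, code x k < N := by
  have h1 : (Set.range fun x => code x k).Finite := by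
    refine ((List.finite_length_eq Bool k).image (Encodable.encode)).subset ?_
    rintro _ ⟨x, rfl⟩
    exact ⟨(List.range k).map x, by simp, rfl⟩
  obtain ⟨N, hN⟩ := h1.bddAbove
  exact ⟨N + 1, fun x => Nat.lt_succ_of_le (hN ⟨x, rfl⟩)⟩

/-- the parameters -/
def Fn (t : (ℕ → Bool) × Bool) (k : ℕ) : ℕ := 3 * code t.1 k + if t.2 then 1 else 0

theorem Fn_ne {t t' : (ℕ → Bool) × Bool} (h : t ≠ t') : ∃ i, ∀ k, i < k → Fn t k ≠ Fn t' k := by
  obtain ⟨x, a⟩ := t
  obtain ⟨y, b⟩ := t'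
  by_cases hab : a = b
  · subst hab
    have hxy : x ≠ y := fun hxy => h (by rw [hxy])
    obtain ⟨i, hi⟩ := code_ne hxy
    refine ⟨i, fun k hk h1 => hi k hk ?_⟩
    unfold Fn at h1
    simp only at h1
    omega
  · refine ⟨0, fun k _ h1 => hab ?_⟩
    unfold Fn at h1
    simp only at h1
    cases a <;> cases b <;> simp only [Bool.false_eq_true, if_true, if_false] at h1 <;>
      first | rfl | omega

/-- the functions of the keys -/
def Ga (t₀ : (ℕ → Bool) × Bool) : ℕ ⊕ ((ℕ → Bool) × Bool) → ℕ → ℕ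
  | .inl 0 => Fn t₀
  | .inl (j + 1) => fun _ => 3 * (j + 1) + 2
  | .inr t => Fn t

/-- the action on the keys -/
def ac (g : ℕ → ℕ) : ℕ ⊕ ((ℕ → Bool) × Bool) → ℕ ⊕ ((ℕ → Bool) × Bool) := Sum.map g id

theorem Ga_ne (t₀ : (ℕ → Bool) × Bool) {κ κ' : ℕ ⊕ ((ℕ → Bool) × Bool)} (h1 : κ ≠ Sum.inr t₀)
    (h2 : κ' ≠ Sum.inr t₀) (h : κ ≠ κ') : ∃ i, ∀ k, i < k → Ga t₀ κ k ≠ Ga t₀ κ' k := by
  have hF : ∀ t k j, Fn t k ≠ 3 * j + 2 := by
    intro t k j h
    unfold Fn at h
    split_ifs at h <;> omega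
  rcases κ with j | t
  · rcases κ' with j' | t'
    · have hjj : j ≠ j' := fun hj => h (by rw [hj])
      cases j with
      | zero =>
        cases j' with
        | zero => exact absurd rfl hjj
        | succ j' => exact ⟨0, fun k _ => hF t₀ k _⟩
      | succ j =>
        cases j' with
        | zero => exact ⟨0, fun k _ => (hF t₀ k _).symm⟩
        | succ j' =>
          refine ⟨0, fun k _ h3 => hjj ?_⟩
          have h4 : 3 * (j + 1) + 2 = 3 * (j' + 1) + 2 := h3
          omega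
    · cases j with
      | zero =>
        have : t₀ ≠ t' := fun h3 => h2 (by rw [h3])
        exact Fn_ne this
      | succ j => exact ⟨0, fun k _ => (hF t' k _).symm⟩
  · rcases κ' with j' | t'
    · cases j' with
      | zero =>
        have : t ≠ t₀ := fun h3 => h1 (by rw [h3])
        exact Fn_ne this
      | succ j' => exact ⟨0, fun k _ => hF t k _⟩
    · exact Fn_ne (fun h3 => h (by rw [h3]))

theorem eventually_gt {U : Ultrafilter ℕ} (hU : ∀ n, {n} ∉ U) (i : ℕ) : ∀ᶠ k in U, i < k := by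
  have h1 : ∀ n : ℕ, ∀ᶠ k : ℕ in (U : Filter ℕ), k ≠ n := by
    intro n
    have := Ultrafilter.compl_mem_iff_notMem.2 (hU n)
    exact this
  have h2 : ∀ᶠ k in U, ∀ n ∈ Finset.range (i + 1), k ≠ n :=
    (Finset.eventually_all _).2 fun n _ => h1 n
  filter_upwards [h2] with k hk
  by_contra hlt
  exact hk k (Finset.mem_range.2 (by omega)) rfl

theorem pattern {U : Ultrafilter ℕ} (hU : ∀ n, {n} ∉ U) (t₀ : (ℕ → Bool) × Bool) {g : ℕ → ℕ}
    (hg : Function.Injective g) {κ κ' : ℕ ⊕ ((ℕ → Bool) × Bool)} (h1 : κ ≠ Sum.inr t₀)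
    (h2 : κ' ≠ Sum.inr t₀) :
    ∀ᶠ k in U, (Ga t₀ κ k = Ga t₀ κ' k ↔ Ga t₀ (ac g κ) k = Ga t₀ (ac g κ') k) := by
  by_cases h : κ = κ'
  · subst h
    exact Eventually.of_forall fun k => by simp
  · have hv : ∀ κ : ℕ ⊕ ((ℕ → Bool) × Bool), κ ≠ Sum.inr t₀ → ac g κ ≠ Sum.inr t₀ := by
      intro κ hκ hac
      rcases κ with j | t
      · exact absurd hac (by simp [ac])
      · exact hκ hac
    have hinj : ac g κ ≠ ac g κ' := by
      intro h3
      exact h ((Sum.map_injective.2 ⟨hg, Function.injective_id⟩) h3)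
    obtain ⟨i, hi⟩ := Ga_ne t₀ h1 h2 h
    obtain ⟨i', hi'⟩ := Ga_ne t₀ (hv κ h1) (hv κ' h2) hinj
    filter_upwards [eventually_gt hU i, eventually_gt hU i'] with k hk hk'
    exact ⟨fun h3 => absurd h3 (hi k hk), fun h3 => absurd h3 (hi' k hk')⟩

/-- the key of an entry -/
noncomputable def ky (t₀ : (ℕ → Bool) × Bool) (j : ℕ) (t : (ℕ → Bool) × Bool) :
    ℕ ⊕ ((ℕ → Bool) × Bool) := by
  classical
  exact if t = t₀ then Sum.inl j else Sum.inr t

theorem ky_ne (t₀ : (ℕ → Bool) × Bool) (j : ℕ) (t : (ℕ → Bool) × Bool) :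
    ky t₀ j t ≠ Sum.inr t₀ := by
  unfold ky
  split_ifs with h
  · simp
  · simpa using h

theorem ac_ky (t₀ : (ℕ → Bool) × Bool) (g : ℕ → ℕ) (j : ℕ) (t : (ℕ → Bool) × Bool) :
    ac g (ky t₀ j t) = ky t₀ (g j) t := by
  unfold ky ac
  split_ifs <;> rfl

theorem ky_zero (t₀ : (ℕ → Bool) × Bool) (t : (ℕ → Bool) × Bool) :
    Ga t₀ (ky t₀ 0 t) = Fn t := by
  unfold ky
  split_ifs with h
  · rw [h]; rfl
  · rfl

/-- the formula `‖v y v* - z‖` -/
def f0 : Fm (1 + 2) :=
  .nrm (.add (.mul (.mul (.var 0) (.var 1)) (.adj (.var 0))) (.scal (-1) (.var 2)))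

/-- the formula `‖x - y‖` -/
def f1 : Fm 2 := .nrm (.add (.var 0) (.scal (-1) (.var 1)))

theorem f0_val (K : TVN) (v : Fin 1 → K.E) (y : Fin 2 → K.E) :
    f0.val (str K) (Fin.append v y) = K.norm2 (v 0 * y 0 * star (v 0) - y 1) := by
  have e0 : (Fin.append v y : Fin 3 → K.E) 0 = v 0 := rfl
  have e1 : (Fin.append v y : Fin 3 → K.E) 1 = y 0 := rfl
  have e2 : (Fin.append v y : Fin 3 → K.E) 2 = y 1 := rfl
  show K.norm2 ((Fin.append v y : Fin 3 → K.E) 0 * (Fin.append v y : Fin 3 → K.E) 1 *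
    star ((Fin.append v y : Fin 3 → K.E) 0) + (-1 : ℂ) • (Fin.append v y : Fin 3 → K.E) 2) = _
  rw [e0, e1, e2, neg_one_smul, ← sub_eq_add_neg]

theorem f1_val (K : TVN) (x : Fin 2 → K.E) : f1.val (str K) x = K.norm2 (x 0 - x 1) := by
  show K.norm2 (x 0 + (-1 : ℂ) • x 1) = _
  rw [neg_one_smul, ← sub_eq_add_neg]

theorem not_simple (R : Str) (hR : R.IsHyperfinite) : ¬ IsSimple R := by
  classical
  intro hS
  obtain ⟨R, rfl⟩ := S.exists_tvn R hR.1
  obtain ⟨j, hc, -⟩ := S.hyp_of R hR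
  have hU : ∀ n, {n} ∉ Filter.hyperfilter ℕ := by
    intro n hn
    exact Filter.notMem_hyperfilter_of_finite (Set.finite_singleton n) hn
  set U := Filter.hyperfilter ℕ with hUdef
  obtain ⟨M, θ, h⟩ := exists_up R U hU
  -- the unitary
  have hbd := code_bdd
  choose B hB using hbd
  obtain ⟨u, hu1, hu2, hu3⟩ := exists_w h hc (fun k σ => ∀ c < B k, σ (3 * c) = 3 * c + 1)
    (Eventually.of_forall fun k => by
      obtain ⟨σ, hσ, hσ'⟩ := exists_ext_perm (fun c : Fin (B k) => 3 * c.1)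
        (fun c : Fin (B k) => 3 * c.1 + 1) (fun v v' => by omega)
      exact ⟨σ, fun c hc => hσ' ⟨c, hc⟩, hσ⟩)
  have hu : ∀ x, u * θ (Sg j (Fn (x, false))) * star u = θ (Sg j (Fn (x, true))) := by
    intro x
    refine hu3 _ _ (Eventually.of_forall fun k σ hσ => ?_)
    have := hσ (code x k) (hB k x)
    simpa [Fn] using this
  let b : (ℕ → Bool) × Bool → M.E := fun t => θ (Sg j (Fn t))
  have hext : IsElemExt (str M) (str M) id := ⟨S.isTVN M, fun _ _ h => h, fun _ _ _ => rfl⟩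
  obtain ⟨A, hAb, ⟨D, hD, hDA⟩, hdiv⟩ := hS (str M) (S.isTVN M) (fun φ => (elemEq_up h φ).symm)
    ((ℕ → Bool) × Bool) (fun _ => 1) b (fun t => Sg_norm h _) 1 (fun _ => 1) (str M) id hext
    (fun _ => u) (fun _ => (S.opNorm_unitary M hu1).trans (by simp))
  apply hdiv
  -- an index outside
  obtain ⟨x₀, hx₀⟩ : ∃ x₀, b (x₀, true) ∉ A := by
    by_contra hcon
    push Not at hcon
    have h1 : ∀ x, ∃ y ∈ D, (str M).norm2 ((str M).sub (b (x, true)) y) < 1 / 2 := fun x =>
      hDA _ (hcon x) (1 / 2) (by norm_num)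
    obtain ⟨d, hd1, hd2⟩ : ∃ d : (ℕ → Bool) → M.E, (∀ x, d x ∈ D) ∧
        ∀ x, (str M).norm2 ((str M).sub (b (x, true)) (d x)) < 1 / 2 := by
      choose d hd1 hd2 using h1
      exact ⟨d, hd1, hd2⟩
    have hinj : Function.Injective d := by
      intro x y hxy
      by_contra hne
      have h2 := hd2 x
      have h3 := hd2 y
      rw [← hxy] at h3
      have h2' : n2 M.τ (b (x, true) - d x) < 1 / 2 :=
        lt_of_eq_of_lt (congrArg (n2 M.τ) (S.sub_eq M (b (x, true)) (d x)).symm) h2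
      have h3' : n2 M.τ (b (y, true) - d x) < 1 / 2 :=
        lt_of_eq_of_lt (congrArg (n2 M.τ) (S.sub_eq M (b (y, true)) (d x)).symm) h3
      have h4 : M.norm2 (b (x, true) - b (y, true)) = Real.sqrt 2 := by
        refine Sg_dist h hc _ _ ?_
        obtain ⟨i, hi⟩ := Fn_ne (t := (x, true)) (t' := (y, true)) (fun h => hne (by
          simpa using h))
        filter_upwards [eventually_gt hU i] with k hk
        exact hi k hk
      have h5 := M.trAlg.n2_tri (b (x, true)) (d x) (b (y, true))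
      rw [M.trAlg.n2_sub_comm (d x)] at h5
      have h6 : n2 M.τ (b (x, true) - b (y, true)) = Real.sqrt 2 := h4
      have h7 : (1 : ℝ) ≤ Real.sqrt 2 := by
        rw [Real.one_le_sqrt]; norm_num
      linarith
    have h8 : (Set.univ : Set (ℕ → Bool)).Countable := by
      have : Countable D := hD
      have h9 : Function.Injective (fun x => (⟨d x, hd1 x⟩ : D)) := fun x y hxy =>
        hinj (congrArg Subtype.val hxy)
      have := h9.countable
      exact Set.countable_univ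
    have h10 := Cardinal.le_aleph0_iff_set_countable.2 h8
    rw [Cardinal.mk_univ] at h10
    have h11 : Cardinal.mk (ℕ → Bool) = Cardinal.continuum := by simp
    rw [h11] at h10
    exact absurd h10 (not_le.2 Cardinal.aleph0_lt_continuum)
  set t₀ : (ℕ → Bool) × Bool := (x₀, true) with ht₀
  let c : ℕ → (ℕ → Bool) × Bool → M.E := fun i t => θ (Sg j (Ga t₀ (ky t₀ i t)))
  refine ⟨str M, id, c, hext, fun i t => Sg_norm h _, fun t => ?_, ?_, ?_⟩
  · show θ (Sg j (Ga t₀ (ky t₀ 0 t))) = θ (Sg j (Fn t))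
    rw [ky_zero]
  · -- indiscernible
    intro g hg m φ s
    have hA : ∀ a : (id '' A : Set M.E), ∃ t, t ≠ t₀ ∧ a.1 = θ (Sg j (Fn t)) := by
      rintro ⟨_, a, ha, rfl⟩
      obtain ⟨t, ht⟩ := hAb ha
      refine ⟨t, fun h1 => hx₀ ?_, ht.symm⟩
      have e : a = b t₀ := ht.symm.trans (congrArg b h1)
      exact e ▸ ha
    choose ta hta1 hta2 using hA
    let K : Fin m → ℕ ⊕ ((ℕ → Bool) × Bool) := fun i =>
      Sum.elim (fun q => ky t₀ q.1 q.2) (fun a => Sum.inr (ta a)) (s i)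
    have hK : ∀ i, K i ≠ Sum.inr t₀ := by
      intro i
      show Sum.elim (fun q => ky t₀ q.1 q.2) (fun a => Sum.inr (ta a)) (s i) ≠ Sum.inr t₀
      rcases s i with q | a
      · exact ky_ne _ _ _
      · exact fun h1 => hta1 a (Sum.inr.inj h1)
    have e1 : (fun i => Sum.elim (fun q => c q.1 q.2) Subtype.val (s i)) =
        fun i => θ (Sg j (Ga t₀ (K i))) := by
      funext i
      show Sum.elim (fun q => c q.1 q.2) Subtype.val (s i) = θ (Sg j (Ga t₀
        (Sum.elim (fun q => ky t₀ q.1 q.2) (fun a => Sum.inr (ta a)) (s i))))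
      rcases s i with q | a
      · rfl
      · exact hta2 a
    have e2 : (fun i => Sum.elim (fun q => c (g q.1) q.2) Subtype.val (s i)) =
        fun i => θ (Sg j (Ga t₀ (ac g (K i)))) := by
      funext i
      show Sum.elim (fun q => c (g q.1) q.2) Subtype.val (s i) = θ (Sg j (Ga t₀
        (ac g (Sum.elim (fun q => ky t₀ q.1 q.2) (fun a => Sum.inr (ta a)) (s i)))))
      rcases s i with q | a
      · show θ (Sg j (Ga t₀ (ky t₀ (g q.1) q.2))) = θ (Sg j (Ga t₀ (ac g (ky t₀ q.1 q.2))))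
        rw [ac_ky]
      · exact hta2 a
    show φ.val (str M) (fun i => Sum.elim (fun q => c q.1 q.2) Subtype.val (s i)) =
      φ.val (str M) (fun i => Sum.elim (fun q => c (g q.1) q.2) Subtype.val (s i))
    refine (congrArg (fun x => φ.val (str M) x) e1).trans (Eq.trans ?_
      (congrArg (fun x => φ.val (str M) x) e2).symm)
    exact fval_pattern h hc φ _ _ fun v v' => pattern hU t₀ hg.injective (hK v) (hK v')
  · -- inconsistency
    rintro K f hf ⟨v, -, hv⟩
    obtain ⟨K, rfl⟩ := S.exists_tvn K hf.tvn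
    suffices hmain : ∀ (v : Fin 1 → K.E) (f : M.E → K.E), IsElemExt (str M) (str K) f →
        (∀ i, tp (str K) v (fun t => f (c i t)) = tp (str M) (fun _ => u) (fun t => b t)) → False
      from hmain v f hf hv
    clear hv v hf f
    intro v f hf hv
    have key : ∀ i, K.norm2 (v 0 * f (c i (x₀, false)) * star (v 0) - f (c i t₀)) = 0 := by
      intro i
      have h1 := congrFun (congrFun (congrFun (hv i) 2) f0) ![(x₀, false), t₀]
      have h2 : f0.val (str K) (Fin.append v fun k => f (c i (![(x₀, false), t₀] k))) =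
          f0.val (str M) (Fin.append (fun _ => u) fun k => b (![(x₀, false), t₀] k)) := h1
      have h3 := f0_val K v (fun k => f (c i (![(x₀, false), t₀] k)))
      have h4 := f0_val M (fun _ => u) (fun k => b (![(x₀, false), t₀] k))
      have h5 : M.norm2 (u * b (x₀, false) * star u - b t₀) = 0 := by
        have h6 : u * b (x₀, false) * star u = b t₀ := hu x₀
        rw [h6, sub_self]
        exact M.trAlg.n2_zero
      exact h3.symm.trans (h2.trans (h4.trans h5))
    have hca : c 1 (x₀, false) = c 0 (x₀, false) := by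
      show θ (Sg j (Ga t₀ (ky t₀ 1 (x₀, false)))) = θ (Sg j (Ga t₀ (ky t₀ 0 (x₀, false))))
      have : ky t₀ 1 (x₀, false) = ky t₀ 0 (x₀, false) := by
        unfold ky
        rw [if_neg (by simp [ht₀]), if_neg (by simp [ht₀])]
      rw [this]
    have k0 : n2 K.τ (v 0 * f (c 0 (x₀, false)) * star (v 0) - f (c 0 t₀)) = 0 := key 0
    have k1 : n2 K.τ (v 0 * f (c 0 (x₀, false)) * star (v 0) - f (c 1 t₀)) = 0 := by
      have := key 1
      rw [hca] at this
      exact this
    have hd1 : K.norm2 (f (c 0 t₀) - f (c 1 t₀)) = Real.sqrt 2 := by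
      have h1 : f1.val (str K) (fun i => f (![c 0 t₀, c 1 t₀] i)) =
          f1.val (str M) ![c 0 t₀, c 1 t₀] := hf.val 2 f1 ![c 0 t₀, c 1 t₀]
      have h2 := f1_val K (fun i => f (![c 0 t₀, c 1 t₀] i))
      have h3 := f1_val M ![c 0 t₀, c 1 t₀]
      have h4 : M.norm2 (c 0 t₀ - c 1 t₀) = Real.sqrt 2 := by
        refine Sg_dist h hc _ _ ?_
        have h5 : ky t₀ 0 t₀ ≠ ky t₀ 1 t₀ := by
          unfold ky
          rw [if_pos rfl, if_pos rfl]
          simp
        obtain ⟨i, hi⟩ := Ga_ne t₀ (ky_ne t₀ 0 t₀) (ky_ne t₀ 1 t₀) h5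
        filter_upwards [eventually_gt hU i] with k hk
        exact hi k hk
      exact h2.symm.trans (h1.trans (h3.trans h4))
    have h9 := K.trAlg.n2_tri (f (c 0 t₀)) (v 0 * f (c 0 (x₀, false)) * star (v 0)) (f (c 1 t₀))
    rw [K.trAlg.n2_sub_comm (f (c 0 t₀)) (v 0 * f (c 0 (x₀, false)) * star (v 0)), k0, k1] at h9
    have h10 : n2 K.τ (f (c 0 t₀) - f (c 1 t₀)) = Real.sqrt 2 := hd1
    have h11 : 0 < Real.sqrt 2 := Real.sqrt_pos.2 (by norm_num)
    linarith

end Pool.Agent.Q301.Simple
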